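import Mathlib

/-!
A symmetric matrix over the field with two elements of rank at most three is a sum of three
rank-one squares.
-/

set_option autoImplicit false

namespace Pool.Agent.N404.Factor3

open Matrix

variable {V : Type} [Fintype V]

/-- range of a matrix -/
abbrev rg (M : Matrix V V (ZMod 2)) : Submodule (ZMod 2) (V → ZMod 2) :=
  LinearMap.range M.mulVecLin

lemma rank_eq (M : Matrix V V (ZMod 2)) : M.rank = Module.finrank (ZMod 2) (rg M) := rfl

lemma col_mem [DecidableEq V] (M : Matrix V V (ZMod 2)) (v : V) : (fun a => M a v) ∈ rg M := by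
  refine ⟨Pi.single v 1, ?_⟩
  rw [Matrix.mulVecLin_apply]
  funext a
  simp

lemma z2 (x : ZMod 2) : x = 0 ∨ x = 1 := by
  revert x; decide

/-- subtracting the square of a column with a nonzero diagonal entry lowers the rank -/
lemma drop1 [DecidableEq V] (M : Matrix V V (ZMod 2)) (hs : ∀ a b, M a b = M b a) (v : V)
    (hv : M v v = 1) :
    (Matrix.of fun a b => M a b + M a v * M b v : Matrix V V (ZMod 2)).rank < M.rank := by
  set N : Matrix V V (ZMod 2) := Matrix.of fun a b => M a b + M a v * M b v with hN
  rw [rank_eq, rank_eq]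
  apply Submodule.finrank_lt_finrank_of_lt
  refine lt_of_le_of_ne ?_ ?_
  · rintro x ⟨y, rfl⟩
    have h : N.mulVecLin y = M.mulVecLin y + (∑ b, M b v * y b) • (fun a => M a v) := by
      funext a
      simp only [Matrix.mulVecLin_apply, Matrix.mulVec, dotProduct, hN, Matrix.of_apply,
        Pi.add_apply, Pi.smul_apply, smul_eq_mul, Finset.sum_mul, ← Finset.sum_add_distrib]
      refine Finset.sum_congr rfl fun b _ => ?_
      ring
    rw [h]
    exact Submodule.add_mem _ ⟨y, rfl⟩ (Submodule.smul_mem _ _ (col_mem M v))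
  · intro h
    have h1 : (fun a => M a v) ∈ rg N := by
      rw [h]
      exact col_mem M v
    obtain ⟨y, hy⟩ := h1
    have h2 : N.mulVecLin y v = 0 := by
      simp only [Matrix.mulVecLin_apply, Matrix.mulVec, dotProduct, hN, Matrix.of_apply]
      refine Finset.sum_eq_zero fun b _ => ?_
      rw [hv, hs b v]
      rcases z2 (M v b) with h3 | h3 <;> rw [h3]
      · simp
      · have : (1 : ZMod 2) + 1 * 1 = 0 := by decide
        rw [this, zero_mul]
    rw [hy] at h2
    have h3 : M v v = 0 := h2
    rw [hv] at h3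
    exact one_ne_zero h3

/-- subtracting a hyperbolic plane lowers the rank by two -/
lemma drop2 [DecidableEq V] (M : Matrix V V (ZMod 2)) (hs : ∀ a b, M a b = M b a) (u v : V)
    (hu0 : M u u = 0) (hv0 : M v v = 0) (huv : M u v = 1) :
    (Matrix.of fun a b => M a b + (M a u * M b v + M a v * M b u) :
      Matrix V V (ZMod 2)).rank + 2 ≤ M.rank := by
  set N : Matrix V V (ZMod 2) := Matrix.of fun a b => M a b + (M a u * M b v + M a v * M b u)
    with hN
  let W : Submodule (ZMod 2) (V → ZMod 2) := rg M ⊓ LinearMap.ker (LinearMap.proj u)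
  have hvu : M v u = 1 := by rw [hs]; exact huv
  have hle : rg N ≤ rg M := by
    rintro x ⟨y, rfl⟩
    have h : N.mulVecLin y = M.mulVecLin y + ((∑ b, M b v * y b) • (fun a => M a u) +
        (∑ b, M b u * y b) • (fun a => M a v)) := by
      funext a
      simp only [Matrix.mulVecLin_apply, Matrix.mulVec, dotProduct, hN, Matrix.of_apply,
        Pi.add_apply, Pi.smul_apply, smul_eq_mul, Finset.sum_mul, ← Finset.sum_add_distrib]
      refine Finset.sum_congr rfl fun b _ => ?_
      ring
    rw [h]
    exact Submodule.add_mem _ ⟨y, rfl⟩ (Submodule.add_mem _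
      (Submodule.smul_mem _ _ (col_mem M u)) (Submodule.smul_mem _ _ (col_mem M v)))
  have hNu : ∀ y, N.mulVecLin y u = 0 := by
    intro y
    simp only [Matrix.mulVecLin_apply, Matrix.mulVec, dotProduct, hN, Matrix.of_apply]
    refine Finset.sum_eq_zero fun b _ => ?_
    rw [hu0, huv, hs b u]
    rcases z2 (M u b) with h3 | h3 <;> rw [h3]
    · simp
    · have : (1 : ZMod 2) + (0 * M b v + 1 * 1) = 0 := by
        rw [zero_mul, zero_add]; decide
      rw [this, zero_mul]
  have hNv : ∀ y, N.mulVecLin y v = 0 := by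
    intro y
    simp only [Matrix.mulVecLin_apply, Matrix.mulVec, dotProduct, hN, Matrix.of_apply]
    refine Finset.sum_eq_zero fun b _ => ?_
    rw [hv0, hvu, hs b v]
    rcases z2 (M v b) with h3 | h3 <;> rw [h3]
    · simp
    · have : (1 : ZMod 2) + (1 * 1 + 0 * M b u) = 0 := by
        rw [zero_mul, add_zero]; decide
      rw [this, zero_mul]
  have h1 : rg N < W := by
    refine lt_of_le_of_ne ?_ ?_
    · rintro x ⟨y, rfl⟩
      refine Submodule.mem_inf.2 ⟨hle ⟨y, rfl⟩, ?_⟩
      rw [LinearMap.mem_ker]
      exact hNu y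
    · intro h
      have h2 : (fun a => M a u) ∈ W := by
        refine Submodule.mem_inf.2 ⟨col_mem M u, ?_⟩
        rw [LinearMap.mem_ker]
        exact hu0
      rw [← h] at h2
      obtain ⟨y, hy⟩ := h2
      have h3 := hNv y
      rw [hy] at h3
      have h4 : M v u = 0 := h3
      rw [hvu] at h4
      exact one_ne_zero h4
  have h2 : W < rg M := by
    refine lt_of_le_of_ne inf_le_left ?_
    intro h
    have h3 : (fun a => M a v) ∈ W := by
      rw [h]
      exact col_mem M v
    have h4 := (Submodule.mem_inf.1 h3).2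
    rw [LinearMap.mem_ker] at h4
    have h5 : M u v = 0 := h4
    rw [huv] at h5
    exact one_ne_zero h5
  have e1 := Submodule.finrank_lt_finrank_of_lt h1
  have e2 := Submodule.finrank_lt_finrank_of_lt h2
  rw [rank_eq, rank_eq]
  omega

/-- a matrix of rank zero is zero -/
lemma rank_zero [DecidableEq V] (M : Matrix V V (ZMod 2)) (h : M.rank = 0) (a b : V) :
    M a b = 0 := by
  rw [rank_eq] at h
  have h1 : rg M = ⊥ := Submodule.finrank_eq_zero.1 h
  have h2 := col_mem M b
  rw [h1, Submodule.mem_bot] at h2
  exact congrFun h2 a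

/-- alternating of rank at most one: zero -/
lemma alt_one [DecidableEq V] (M : Matrix V V (ZMod 2)) (hs : ∀ a b, M a b = M b a)
    (hd : ∀ a, M a a = 0) (hr : M.rank ≤ 1) (a b : V) : M a b = 0 := by
  by_contra h
  have h1 : M a b = 1 := (z2 _).resolve_left h
  have := drop2 M hs a b (hd a) (hd b) h1
  omega

/-- alternating of rank at most three: a hyperbolic plane -/
lemma alt_three [DecidableEq V] (M : Matrix V V (ZMod 2)) (hs : ∀ a b, M a b = M b a)
    (hd : ∀ a, M a a = 0) (hr : M.rank ≤ 3) :
    ∃ x y : V → ZMod 2, ∀ a b, M a b = x a * y b + y a * x b := by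
  by_cases h : ∀ a b, M a b = 0
  · exact ⟨0, 0, fun a b => by rw [h a b]; simp⟩
  · push Not at h
    obtain ⟨u, v, huv⟩ := h
    have h1 : M u v = 1 := (z2 _).resolve_left huv
    have h2 := drop2 M hs u v (hd u) (hd v) h1
    refine ⟨fun a => M a u, fun a => M a v, ?_⟩
    intro a b
    have h3 := alt_one (Matrix.of fun a b => M a b + (M a u * M b v + M a v * M b u))
      (fun a b => by simp only [Matrix.of_apply]; rw [hs a b]; ring)
      (fun a => by
        simp only [Matrix.of_apply]
        rw [hd a, mul_comm (M a v), zero_add]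
        exact CharTwo.add_self_eq_zero _)
      (by omega) a b
    simp only [Matrix.of_apply] at h3
    have h4 := CharTwo.add_self_eq_zero (M a u * M b v + M a v * M b u)
    calc M a b = M a b + ((M a u * M b v + M a v * M b u) + (M a u * M b v + M a v * M b u)) := by
          rw [h4, add_zero]
      _ = (M a b + (M a u * M b v + M a v * M b u)) + (M a u * M b v + M a v * M b u) := by ring
      _ = _ := by rw [h3, zero_add]

lemma back (p q : ZMod 2) : p = (p + q) + q := by
  revert p q; decide

/-- **Factorisation.** -/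
theorem factor [DecidableEq V] (M : Matrix V V (ZMod 2)) (hs : ∀ a b, M a b = M b a)
    (hr : M.rank ≤ 3) :
    ∃ x y z : V → ZMod 2, ∀ a b, M a b = x a * x b + y a * y b + z a * z b := by
  by_cases h0 : ∀ a, M a a = 0
  · obtain ⟨x, y, hxy⟩ := alt_three M hs h0 hr
    refine ⟨x, y, x + y, fun a b => ?_⟩
    rw [hxy]
    simp only [Pi.add_apply]
    generalize x a = p; generalize x b = q; generalize y a = r; generalize y b = s
    revert p q r s; decide
  push Not at h0
  obtain ⟨u, hu⟩ := h0
  have hu1 : M u u = 1 := (z2 _).resolve_left hu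
  set M1 : Matrix V V (ZMod 2) := Matrix.of fun a b => M a b + M a u * M b u with hM1
  have hr1 : M1.rank ≤ 2 := by
    have := drop1 M hs u hu1
    rw [← hM1] at this
    omega
  have hs1 : ∀ a b, M1 a b = M1 b a := fun a b => by
    simp only [hM1, Matrix.of_apply]; rw [hs a b]; ring
  have hb1 : ∀ a b, M a b = M1 a b + M a u * M b u := fun a b => by
    simp only [hM1, Matrix.of_apply]
    exact back _ _
  by_cases h1 : ∀ a, M1 a a = 0
  · obtain ⟨x, y, hxy⟩ := alt_three M1 hs1 h1 (by omega)
    refine ⟨fun a => M a u + x a, fun a => M a u + y a, fun a => M a u + x a + y a,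
      fun a b => ?_⟩
    rw [hb1, hxy]
    beta_reduce
    generalize x a = p; generalize x b = q; generalize y a = r; generalize y b = s
    generalize M a u = t; generalize M b u = w
    revert p q r s t w; decide
  push Not at h1
  obtain ⟨v, hv⟩ := h1
  have hv1 : M1 v v = 1 := (z2 _).resolve_left hv
  set M2 : Matrix V V (ZMod 2) := Matrix.of fun a b => M1 a b + M1 a v * M1 b v with hM2
  have hr2 : M2.rank ≤ 1 := by
    have := drop1 M1 hs1 v hv1
    rw [← hM2] at this
    omega
  have hs2 : ∀ a b, M2 a b = M2 b a := fun a b => by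
    simp only [hM2, Matrix.of_apply]; rw [hs1 a b]; ring
  have hb2 : ∀ a b, M1 a b = M2 a b + M1 a v * M1 b v := fun a b => by
    simp only [hM2, Matrix.of_apply]
    exact back _ _
  by_cases h2 : ∀ a, M2 a a = 0
  · refine ⟨fun a => M a u, fun a => M1 a v, 0, fun a b => ?_⟩
    rw [hb1, hb2, alt_one M2 hs2 h2 hr2 a b]
    simp only [Pi.zero_apply]
    ring
  push Not at h2
  obtain ⟨w, hw⟩ := h2
  have hw1 : M2 w w = 1 := (z2 _).resolve_left hw
  have hr3 := drop1 M2 hs2 w hw1
  have hb3 : ∀ a b, M2 a b = M2 a w * M2 b w := fun a b => by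
    have h3 := rank_zero _ (by omega : (Matrix.of fun a b => M2 a b + M2 a w * M2 b w :
      Matrix V V (ZMod 2)).rank = 0) a b
    simp only [Matrix.of_apply] at h3
    have := back (M2 a b) (M2 a w * M2 b w)
    rw [h3, zero_add] at this
    exact this
  refine ⟨fun a => M a u, fun a => M1 a v, fun a => M2 a w, fun a b => ?_⟩
  rw [hb1, hb2, hb3]
  ring

end Pool.Agent.N404.Factor3
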