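import Mathlib
import Pool.Agent.N404.Factor3
import Pool.Agent.Results.MP_7ecff9_co.DijoinTriangle

/-!
If four inversions make the dijoin of an oriented graph with the directed triangle acyclic, then
three inversions make the oriented graph acyclic.
-/

set_option autoImplicit false

namespace Pool.Agent.N404.Inv4

open Matrix Pool.Agent.Results.MP_7ecff9_co.DijoinTriangle

/-- the number of sets of the family containing both points -/
noncomputable def cnt {α : Type} {k : ℕ} (X : Fin k → Set α) (a b : α) : ℕ :=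
  Nat.card {i : Fin k // a ∈ X i ∧ b ∈ X i}

/-- the relation obtained from `r` by the inversions `X` -/
def Inv {α : Type} {k : ℕ} (r : α → α → Prop) (X : Fin k → Set α) (a b : α) : Prop :=
  (r a b ∧ Even (cnt X a b)) ∨ (r b a ∧ Odd (cnt X a b))

lemma cnt_symm {α : Type} {k : ℕ} (X : Fin k → Set α) (a b : α) : cnt X a b = cnt X b a := by
  unfold cnt
  exact Nat.card_congr (Equiv.subtypeEquivRight fun i => and_comm)

open Classical in
/-- indicator of a set with values in the field with two elements -/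
noncomputable def ind {α : Type} (S : Set α) (a : α) : ZMod 2 := if a ∈ S then 1 else 0

lemma cnt_cast {α : Type} {k : ℕ} (X : Fin k → Set α) (a b : α) :
    ((cnt X a b : ℕ) : ZMod 2) = ∑ i, ind (X i) a * ind (X i) b := by
  classical
  unfold cnt
  rw [Nat.card_eq_fintype_card, Fintype.card_subtype]
  have h : ∀ i : Fin k, ind (X i) a * ind (X i) b = if a ∈ X i ∧ b ∈ X i then (1 : ZMod 2) else 0 := by
    intro i
    unfold ind
    by_cases h1 : a ∈ X i <;> by_cases h2 : b ∈ X i <;> simp [h1, h2]
  rw [Finset.sum_congr rfl (fun i _ => h i), Finset.sum_boole]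

lemma even_iff {α : Type} {k : ℕ} (X : Fin k → Set α) (a b : α) :
    Even (cnt X a b) ↔ ∑ i, ind (X i) a * ind (X i) b = 0 := by
  rw [← cnt_cast, ZMod.natCast_eq_zero_iff_even]

lemma odd_iff {α : Type} {k : ℕ} (X : Fin k → Set α) (a b : α) :
    Odd (cnt X a b) ↔ ∑ i, ind (X i) a * ind (X i) b = 1 := by
  rw [← cnt_cast, ZMod.natCast_eq_one_iff_odd]

/-- the dijoin of two relations -/
def dj {n m : ℕ} (r₁ : Fin n → Fin n → Prop) (r₂ : Fin m → Fin m → Prop)
    (a b : Fin n ⊕ Fin m) : Prop :=
  (∃ x y, a = Sum.inl x ∧ b = Sum.inl y ∧ r₁ x y) ∨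
    (∃ x y, a = Sum.inr x ∧ b = Sum.inr y ∧ r₂ x y) ∨
    (∃ x y, a = Sum.inl x ∧ b = Sum.inr y)

/-- an acyclic relation is contained in a strict linear order -/
lemma extend {α : Type} (R : α → α → Prop) (h : ∀ v, ¬ Relation.TransGen R v v) :
    ∃ L : α → α → Prop, (∀ a b, R a b → L a b) ∧ (∀ a, ¬ L a a) ∧
      (∀ a b c, L a b → L b c → L a c) ∧ (∀ a b, a ≠ b → (L a b ∨ L b a)) := by
  classical
  have : IsPartialOrder α (Relation.ReflTransGen R) :=
    { refl := fun a => Relation.ReflTransGen.refl
      trans := fun a b c h1 h2 => h1.trans h2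
      antisymm := fun a b h1 h2 => by
        rcases Relation.reflTransGen_iff_eq_or_transGen.1 h1 with h3 | h3
        · exact h3.symm
        · exact absurd (Relation.TransGen.trans_left h3 h2) (h a) }
  obtain ⟨s, hs, hle⟩ := extend_partialOrder (Relation.ReflTransGen R)
  refine ⟨fun a b => s a b ∧ a ≠ b, ?_, ?_, ?_, ?_⟩
  · intro a b hab
    refine ⟨hle _ _ (Relation.ReflTransGen.single hab), ?_⟩
    rintro rfl
    exact h a (Relation.TransGen.single hab)
  · intro a ha
    exact ha.2 rfl
  · intro a b c h1 h2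
    refine ⟨hs.trans _ _ _ h1.1 h2.1, ?_⟩
    rintro rfl
    exact h1.2 (hs.antisymm _ _ h1.1 h2.1)
  · intro a b hab
    rcases hs.total a b with h1 | h1
    · exact Or.inl ⟨h1, hab⟩
    · exact Or.inr ⟨h1, hab.symm⟩

theorem main {n : ℕ} (r₁ : Fin n → Fin n → Prop) (X : Fin 4 → Set (Fin n ⊕ Fin 3))
    (hX : ∀ v, ¬ Relation.TransGen (Inv (dj r₁ C3.arc) X) v v) :
    ∃ Y : Fin 3 → Set (Fin n), ∀ v, ¬ Relation.TransGen (Inv r₁ Y) v v := by
  classical
  obtain ⟨L, hRL, hirr, htr, htot⟩ := extend _ hX
  have hasy : ∀ a b, L a b → ¬ L b a := fun a b h1 h2 => hirr a (htr _ _ _ h1 h2)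
  -- the linear order as a tournament
  let TL : Tourn (Fin n ⊕ Fin 3) :=
    { arc := L
      loopless := hirr
      total := fun u v h => ⟨hasy u v, fun h2 => (htot u v h).resolve_right h2⟩ }
  have hTL : Transitive TL := transitive_of_trans htr
  -- the inverted tournament on everything
  let A : Fin n ⊕ Fin 3 → Fin n ⊕ Fin 3 → Prop := fun a b =>
    (L a b ∧ Even (cnt X a b)) ∨ (L b a ∧ Odd (cnt X a b))
  have hA1 : ∀ a, ¬ A a a := by
    rintro a (h | h)
    · exact hirr a h.1
    · exact hirr a h.1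
  have hA2 : ∀ a b, a ≠ b → (A a b ↔ ¬ A b a) := by
    intro a b hab
    have h1 := htot a b hab
    have h2 := hasy a b
    have h3 := hasy b a
    have h4 : Odd (cnt X a b) ↔ ¬ Even (cnt X a b) := Nat.not_even_iff_odd.symm
    have h5 : Even (cnt X b a) ↔ Even (cnt X a b) := by rw [cnt_symm]
    have h6 : Odd (cnt X b a) ↔ ¬ Even (cnt X a b) := by rw [cnt_symm X b a, h4]
    simp only [A]
    rw [h4, h5, h6]
    tauto
  -- arcs of the dijoin are arcs of `A`
  have hA3 : ∀ a b, dj r₁ C3.arc a b → A a b := by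
    intro a b hab
    rcases Nat.even_or_odd (cnt X a b) with he | ho
    · exact Or.inl ⟨hRL a b (Or.inl ⟨hab, he⟩), he⟩
    · refine Or.inr ⟨hRL b a (Or.inr ⟨hab, ?_⟩), ho⟩
      rw [cnt_symm]
      exact ho
  let D : Tourn (Fin n) :=
    { arc := fun u v => A (Sum.inl u) (Sum.inl v)
      loopless := fun u => hA1 _
      total := fun u v h => hA2 _ _ (fun h2 => h (Sum.inl_injective h2)) }
  have hD : ∀ a b, (dijoin D C3).arc a b → A a b := by
    rintro (u | u) (v | v) h
    · exact h
    · exact hA3 _ _ (Or.inr (Or.inr ⟨u, v, rfl, rfl⟩))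
    · exact absurd h (by simp [dijoin])
    · exact hA3 _ _ (Or.inr (Or.inl ⟨u, v, rfl, rfl, h⟩))
  -- the Gram matrix
  let B : Matrix (Fin n ⊕ Fin 3) (Fin 4) (ZMod 2) := Matrix.of fun a i => ind (X i) a
  have hM : InM (diffGraph (dijoin D C3) TL) (B * Bᵀ) := by
    rw [inM_iff]
    have hB : ∀ a b, (B * Bᵀ) a b = ∑ i, ind (X i) a * ind (X i) b := by
      intro a b
      rw [Matrix.mul_apply]
      rfl
    intro a b hab
    have hAab := hD a b hab
    rw [hB, hB]
    have hsym : ∑ i, ind (X i) b * ind (X i) a = ∑ i, ind (X i) a * ind (X i) b :=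
      Finset.sum_congr rfl fun i _ => mul_comm _ _
    rw [hsym]
    constructor
    · intro h
      have : Odd (cnt X a b) := by
        rcases hAab with h2 | h2
        · exact absurd h (hasy _ _ h2.1)
        · exact h2.2
      rw [odd_iff] at this
      exact ⟨this, this⟩
    · intro h
      have : Even (cnt X a b) := by
        rcases hAab with h2 | h2
        · exact h2.2
        · exact absurd h (hasy _ _ h2.1)
      rw [even_iff] at this
      exact ⟨this, this⟩
  have hr4 : (B * Bᵀ).rank ≤ 4 := by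
    refine (Matrix.rank_mul_le_left _ _).trans ?_
    refine (Matrix.rank_le_card_width _).trans ?_
    simp
  have h4 : tmr (dijoin D C3) ≤ 4 := (tmr_le hTL hM).trans hr4
  rw [eq_first] at h4
  obtain ⟨T, hT, M, hMT, hMr⟩ := tmr_spec D
  obtain ⟨x, y, z, hxyz⟩ := Factor3.factor M hMT.symm (by omega)
  let w : Fin 3 → Fin n → ZMod 2 := ![x, y, z]
  refine ⟨fun i => {a | w i a = 1}, ?_⟩
  have hind : ∀ i a, ind {a | w i a = 1} a = w i a := by
    intro i a
    unfold ind
    rcases Factor3.z2 (w i a) with h | h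
    · rw [h]; simp [h]
    · simp [h]
  have hsum : ∀ a b, ∑ i, ind {a | w i a = 1} a * ind {a | w i a = 1} b = M a b := by
    intro a b
    rw [hxyz, Finset.sum_congr rfl (fun i _ => by rw [hind, hind]), Fin.sum_univ_three]
    rfl
  -- the inverted relation is contained in the transitive tournament `T`
  have key : ∀ a b, Inv r₁ (fun i => {a | w i a = 1}) a b → T.arc a b := by
    have h1 : ∀ a b, r₁ a b → D.arc a b := fun a b h => hA3 _ _ (Or.inl ⟨a, b, rfl, rfl, h⟩)
    rw [inM_iff] at hMT
    rintro a b (⟨h2, h3⟩ | ⟨h2, h3⟩)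
    · rw [even_iff, hsum] at h3
      have hab := h1 a b h2
      rcases tri T a b with h4 | h4 | h4
      · exact h4
      · rw [h4] at hab
        exact absurd hab (D.loopless _)
      · have := ((hMT a b hab).1 h4).1
        rw [h3] at this
        exact absurd this (by decide)
    · rw [odd_iff, hsum] at h3
      have hab := h1 b a h2
      rcases tri T a b with h4 | h4 | h4
      · exact h4
      · rw [h4] at hab
        exact absurd hab (D.loopless _)
      · have := ((hMT b a hab).2 h4).2
        rw [h3] at this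
        exact absurd this (by decide)
  intro v hv
  exact hT v (Relation.TransGen.mono key _ _ hv)

end Pool.Agent.N404.Inv4
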