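import Mathlib
import Pool.Agent.Helper244.Br.Final

set_option autoImplicit false

/-!
# Weighted Brouwer inequality

For a nonnegative weight matrix, the sum of the `k` largest Laplacian eigenvalues is at most the
total weight plus the sum of the `k (k + 1) / 2` largest weights.
-/

namespace Pool.Agent.N404.WBr

open Finset Matrix

/-- Fractional knapsack: a maximal-weight `K`-subset dominates every fractional one. -/
theorem exists_top {ι : Type*} [DecidableEq ι] (U : Finset ι) (w x : ι → ℝ) (K : ℕ)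
    (hK : K ≤ U.card) (hw : ∀ p ∈ U, 0 ≤ w p) (hx0 : ∀ p ∈ U, 0 ≤ x p) (hx1 : ∀ p ∈ U, x p ≤ 1)
    (hxs : ∑ p ∈ U, x p ≤ K) :
    ∃ P ⊆ U, P.card = K ∧ ∑ p ∈ U, w p * x p ≤ ∑ p ∈ P, w p := by
  classical
  have hne : (U.powersetCard K).Nonempty := Finset.powersetCard_nonempty.2 hK
  obtain ⟨P, hP, hmax⟩ := Finset.exists_max_image (U.powersetCard K) (fun P => ∑ p ∈ P, w p) hne
  rw [Finset.mem_powersetCard] at hP
  refine ⟨P, hP.1, hP.2, ?_⟩
  have hswap : ∀ p ∈ P, ∀ q ∈ U \ P, w q ≤ w p := by
    intro p hp q hq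
    rw [Finset.mem_sdiff] at hq
    have hcard : (insert q (P.erase p)).card = K := by
      rw [Finset.card_insert_of_notMem (fun h => hq.2 (Finset.mem_of_mem_erase h)),
        Finset.card_erase_of_mem hp]
      have : 0 < P.card := Finset.card_pos.2 ⟨p, hp⟩
      omega
    have hm : insert q (P.erase p) ∈ U.powersetCard K := by
      rw [Finset.mem_powersetCard]
      refine ⟨?_, hcard⟩
      intro y hy
      rcases Finset.mem_insert.1 hy with rfl | hy
      · exact hq.1
      · exact hP.1 (Finset.mem_of_mem_erase hy)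
    have h := hmax _ hm
    rw [Finset.sum_insert (fun h => hq.2 (Finset.mem_of_mem_erase h))] at h
    have h2 := Finset.add_sum_erase P w hp
    linarith
  rcases P.eq_empty_or_nonempty with hPe | hPn
  · subst hPe
    simp only [Finset.card_empty] at hP
    have hK0 : K = 0 := hP.2.symm
    subst hK0
    have hx : ∀ p ∈ U, x p = 0 := by
      have : ∑ p ∈ U, x p = 0 := le_antisymm (by simpa using hxs) (Finset.sum_nonneg hx0)
      exact (Finset.sum_eq_zero_iff_of_nonneg hx0).1 this
    rw [Finset.sum_empty, Finset.sum_eq_zero]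
    intro p hp; rw [hx p hp, mul_zero]
  · obtain ⟨p0, hp0, hmin⟩ := Finset.exists_min_image P w hPn
    have hsplit : ∀ f : ι → ℝ, ∑ p ∈ U, f p = ∑ p ∈ P, f p + ∑ p ∈ U \ P, f p := by
      intro f
      rw [add_comm]
      exact (Finset.sum_sdiff hP.1).symm
    have h1 : ∑ p ∈ U \ P, w p * x p ≤ w p0 * ∑ p ∈ U \ P, x p := by
      rw [Finset.mul_sum]
      apply Finset.sum_le_sum
      intro q hq
      exact mul_le_mul_of_nonneg_right (hswap p0 hp0 q hq) (hx0 q (Finset.mem_sdiff.1 hq).1)
    have hxs' := hxs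
    rw [hsplit x] at hxs'
    have h2 : ∑ p ∈ U \ P, x p ≤ ∑ p ∈ P, (1 - x p) := by
      rw [Finset.sum_sub_distrib, Finset.sum_const, nsmul_eq_mul, mul_one, hP.2]
      linarith
    have h3 : w p0 * ∑ p ∈ P, (1 - x p) ≤ ∑ p ∈ P, w p * (1 - x p) := by
      rw [Finset.mul_sum]
      apply Finset.sum_le_sum
      intro p hp
      exact mul_le_mul_of_nonneg_right (hmin p hp) (by linarith [hx1 p (hP.1 hp)])
    have h4 : w p0 * ∑ p ∈ U \ P, x p ≤ w p0 * ∑ p ∈ P, (1 - x p) :=
      mul_le_mul_of_nonneg_left h2 (hw p0 (hP.1 hp0))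
    rw [hsplit]
    have h5 : ∑ p ∈ P, w p * x p + ∑ p ∈ P, w p * (1 - x p) = ∑ p ∈ P, w p := by
      rw [← Finset.sum_add_distrib]
      apply Finset.sum_congr rfl; intro p _; ring
    linarith

/-- Symmetric double sums with zero diagonal are twice the sums over ordered pairs. -/
theorem sum_sum_symm {n : ℕ} (f : Fin n → Fin n → ℝ) (hs : ∀ i j, f i j = f j i)
    (h0 : ∀ i, f i i = 0) :
    ∑ i, ∑ j, f i j = 2 * ∑ p ∈ (univ : Finset (Fin n × Fin n)).filter (fun p => p.1 < p.2),
      f p.1 p.2 := by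
  rw [Finset.sum_filter, Fintype.sum_prod_type]
  have h : ∀ i j, f i j = (if i < j then f i j else 0) + (if j < i then f j i else 0) := by
    intro i j
    rcases lt_trichotomy i j with h | h | h
    · rw [if_pos h, if_neg (lt_asymm h)]; ring
    · subst h; simp [h0]
    · rw [if_neg (lt_asymm h), if_pos h, hs]; ring
  have h1 : ∑ i, ∑ j, f i j = ∑ i, ∑ j, (if i < j then f i j else 0)
      + ∑ i, ∑ j, (if j < i then f j i else 0) := by
    rw [← Finset.sum_add_distrib]
    apply Finset.sum_congr rfl; intro i _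
    rw [← Finset.sum_add_distrib]
    exact Finset.sum_congr rfl fun j _ => h i j
  rw [h1]
  have h2 : ∑ i, ∑ j, (if j < i then f j i else 0) = ∑ i, ∑ j, (if i < j then f i j else 0) :=
    Finset.sum_comm
  rw [h2]; ring

theorem inner_sum {n : ℕ} {ι : Type*} [Fintype ι] [DecidableEq ι]
    (b : OrthonormalBasis ι ℝ (EuclideanSpace ℝ (Fin n))) (a c : ι) :
    ∑ i, b a i * b c i = if a = c then 1 else 0 := by
  have h := (orthonormal_iff_ite.1 b.orthonormal) a c
  rw [← h]
  simp only [PiLp.inner_apply, RCLike.inner_apply, conj_trivial]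
  exact Finset.sum_congr rfl fun i _ => mul_comm _ _

section
variable {n : ℕ} (A : Matrix (Fin n) (Fin n) ℝ) (hA : A.IsSymm)
    (hL : (Matrix.diagonal (fun i => ∑ j, A i j) - A).IsHermitian)

/-- Entries of the Laplacian applied to a vector. -/
theorem lap_mulVec (v : Fin n → ℝ) (i : Fin n) :
    ((Matrix.diagonal (fun i => ∑ j, A i j) - A) *ᵥ v) i = ∑ j, A i j * (v i - v j) := by
  rw [Matrix.sub_mulVec, Pi.sub_apply, Matrix.mulVec_diagonal]
  simp only [Matrix.mulVec, dotProduct]
  rw [Finset.sum_mul, ← Finset.sum_sub_distrib]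
  exact Finset.sum_congr rfl fun j _ => by ring

include hA in
theorem eigen_eq (a : Fin n) :
    2 * hL.eigenvalues a = ∑ i, ∑ j, A i j * (hL.eigenvectorBasis a i - hL.eigenvectorBasis a j) ^ 2 := by
  have h := hL.eigenvalues_eq a
  rw [h]
  simp only [star_trivial, RCLike.re_to_real, dotProduct]
  simp only [lap_mulVec]
  set v : Fin n → ℝ := fun i => hL.eigenvectorBasis a i with hv
  change 2 * ∑ i, v i * ∑ j, A i j * (v i - v j) = ∑ i, ∑ j, A i j * (v i - v j) ^ 2
  have e1 : ∑ i, v i * ∑ j, A i j * (v i - v j) = ∑ i, ∑ j, A i j * (v i * (v i - v j)) := by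
    apply Finset.sum_congr rfl; intro i _
    rw [Finset.mul_sum]
    exact Finset.sum_congr rfl fun j _ => by ring
  have e2 : ∑ i, ∑ j, A i j * (v i * (v i - v j)) = ∑ i, ∑ j, A i j * (v j * (v j - v i)) := by
    rw [Finset.sum_comm]
    apply Finset.sum_congr rfl; intro i _
    apply Finset.sum_congr rfl; intro j _
    have : A j i = A i j := by
      have := congrFun (congrFun hA i) j
      simpa [Matrix.transpose_apply] using this
    rw [this]
  rw [two_mul]
  nth_rewrite 2 [e1]
  rw [e2, e1, ← Finset.sum_add_distrib]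
  apply Finset.sum_congr rfl; intro i _
  rw [← Finset.sum_add_distrib]
  apply Finset.sum_congr rfl; intro j _
  ring

include hA in
theorem eig_zero (a : Fin n) (h : hL.eigenvalues a ≠ 0) : ∑ i, hL.eigenvectorBasis a i = 0 := by
  have h1 := hL.mulVec_eigenvectorBasis a
  have h2 : ∑ i, ((Matrix.diagonal (fun i => ∑ j, A i j) - A) *ᵥ
      (fun i => hL.eigenvectorBasis a i)) i = 0 := by
    simp only [lap_mulVec]
    have e : ∑ i, ∑ j, A i j * (hL.eigenvectorBasis a i - hL.eigenvectorBasis a j) =
        - ∑ i, ∑ j, A i j * (hL.eigenvectorBasis a i - hL.eigenvectorBasis a j) := by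
      nth_rewrite 1 [Finset.sum_comm]
      rw [← Finset.sum_neg_distrib]
      apply Finset.sum_congr rfl; intro i _
      rw [← Finset.sum_neg_distrib]
      apply Finset.sum_congr rfl; intro j _
      have : A j i = A i j := by
        have := congrFun (congrFun hA i) j
        simpa [Matrix.transpose_apply] using this
      rw [this]; ring
    linarith
  have h3 : ∑ i, ((Matrix.diagonal (fun i => ∑ j, A i j) - A) *ᵥ
      (fun i => hL.eigenvectorBasis a i)) i = hL.eigenvalues a * ∑ i, hL.eigenvectorBasis a i := by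
    rw [Finset.mul_sum]
    apply Finset.sum_congr rfl; intro i _
    have := congrFun h1 i
    simpa using this
  rw [h3] at h2
  exact (mul_eq_zero.1 h2).resolve_left h

end

/-- The main estimate: a set of eigenvalues of the weighted Laplacian. -/
theorem weighted {n : ℕ} (A : Matrix (Fin n) (Fin n) ℝ) (hA : A.IsSymm) (h0 : ∀ i j, 0 ≤ A i j)
    (hd : ∀ i, A i i = 0)
    (hL : (Matrix.diagonal (fun i => ∑ j, A i j) - A).IsHermitian) (k : ℕ) (hk1 : 1 ≤ k)
    (hk : k ≤ n - 1) (s : Finset (Fin n)) (hs : s.card = k) :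
    ∃ P : Finset (Fin n × Fin n), P.card = (k + 1).choose 2 ∧ (∀ p ∈ P, p.1 < p.2) ∧
      ∑ i ∈ s, hL.eigenvalues i ≤
        (∑ i, ∑ j, if i < j then A i j else 0) + ∑ p ∈ P, A p.1 p.2 := by
  classical
  set b := hL.eigenvectorBasis with hb
  set T := s.filter (fun a => hL.eigenvalues a ≠ 0) with hT
  have hsum : ∑ a ∈ s, hL.eigenvalues a = ∑ a ∈ T, hL.eigenvalues a := by
    rw [hT, Finset.sum_filter_ne_zero]
  have hz : ∀ a ∈ T, ∑ i, b a i = 0 := fun a ha => eig_zero A hA hL a (Finset.mem_filter.1 ha).2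
  set P : Matrix (Fin n) (Fin n) ℝ := Matrix.of (fun i j => ∑ a ∈ T, b a i * b a j) with hP
  have hPe : ∀ i j, P i j = ∑ a ∈ T, b a i * b a j := fun i j => rfl
  have hsymm : ∀ i j, P i j = P j i := by
    intro i j
    rw [hPe, hPe]
    exact Finset.sum_congr rfl fun a _ => mul_comm _ _
  have hPs : Pᵀ = P := by
    ext i j
    rw [Matrix.transpose_apply]
    exact hsymm j i
  have hPi : P * P = P := by
    ext i j
    rw [Matrix.mul_apply]
    have : ∀ l, P i l * P l j = ∑ a ∈ T, ∑ c ∈ T, (b a i * b c j) * (b a l * b c l) := by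
      intro l
      rw [hPe, hPe, Finset.sum_mul_sum]
      apply Finset.sum_congr rfl; intro a _
      apply Finset.sum_congr rfl; intro c _
      ring
    rw [Finset.sum_congr rfl fun l _ => this l, Finset.sum_comm, hPe]
    apply Finset.sum_congr rfl; intro a ha
    rw [Finset.sum_comm]
    simp_rw [← Finset.mul_sum, inner_sum]
    simp [ha]
  have hP1 : ∀ i, ∑ j, P i j = 0 := by
    intro i
    simp only [hPe]
    rw [Finset.sum_comm]
    apply Finset.sum_eq_zero
    intro a ha
    rw [← Finset.mul_sum, hz a ha, mul_zero]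
  have htr : ∑ i, P i i = T.card := by
    simp only [hPe]
    rw [Finset.sum_comm]
    have : ∀ a ∈ T, ∑ i, b a i * b a i = 1 := by
      intro a _
      rw [inner_sum]; simp
    rw [Finset.sum_congr rfl this]; simp
  -- the weights
  set q : Fin n → Fin n → ℝ := fun i j => P i i + P j j - 2 * P i j with hq
  have hqs : ∀ i j, q i j = q j i := by
    intro i j
    simp only [hq]
    rw [hsymm i j]; ring
  have hq0 : ∀ i, q i i = 0 := by intro i; simp only [hq]; ring
  -- the sum of the eigenvalues
  have hE : 2 * ∑ a ∈ T, hL.eigenvalues a = ∑ i, ∑ j, A i j * q i j := by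
    rw [Finset.mul_sum, Finset.sum_congr rfl fun a _ => eigen_eq A hA hL a, Finset.sum_comm]
    apply Finset.sum_congr rfl; intro i _
    rw [Finset.sum_comm]
    apply Finset.sum_congr rfl; intro j _
    simp only [hq, hPe]
    rw [Finset.mul_sum, ← Finset.sum_add_distrib, ← Finset.sum_sub_distrib, Finset.mul_sum]
    apply Finset.sum_congr rfl; intro a _
    ring
  set U := (univ : Finset (Fin n × Fin n)).filter (fun p => p.1 < p.2) with hU
  have hAs : ∀ i j, A i j = A j i := by
    intro i j
    have := congrFun (congrFun hA i) j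
    simpa [Matrix.transpose_apply] using this.symm
  have hE2 : ∑ a ∈ T, hL.eigenvalues a = ∑ p ∈ U, A p.1 p.2 * q p.1 p.2 := by
    have := sum_sum_symm (fun i j => A i j * q i j) (fun i j => by rw [hAs i j, hqs i j])
      (fun i => by rw [hd i, zero_mul])
    rw [← hE] at this
    linarith
  -- q ≤ 2
  have hq2 : ∀ i j, i ≠ j → q i j ≤ 2 := by
    intro i j hij
    have e1 : ∑ l, (P l i - P l j) ^ 2 = q i j := by
      have h1 : ∀ x y, ∑ l, P l x * P l y = P x y := by
        intro x y
        have := congrFun (congrFun hPi x) y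
        rw [Matrix.mul_apply] at this
        rw [← this]
        exact Finset.sum_congr rfl fun l _ => by rw [hsymm x l]
      have : ∑ l, (P l i - P l j) ^ 2 = ∑ l, P l i * P l i + ∑ l, P l j * P l j
          - 2 * ∑ l, P l i * P l j := by
        rw [Finset.mul_sum, ← Finset.sum_add_distrib, ← Finset.sum_sub_distrib]
        exact Finset.sum_congr rfl fun l _ => by ring
      rw [this, h1, h1, h1]
    have e2 : (P i i - P i j) ^ 2 + (P j i - P j j) ^ 2 ≤ q i j := by
      rw [← e1]
      have hsub : ({i, j} : Finset (Fin n)) ⊆ univ := Finset.subset_univ _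
      have := Finset.sum_le_sum_of_subset_of_nonneg (f := fun l => (P l i - P l j) ^ 2) hsub
        (fun l _ _ => sq_nonneg _)
      rw [Finset.sum_pair hij] at this
      exact this
    have e3 : q i j = (P i i - P i j) - (P j i - P j j) := by
      simp only [hq]
      rw [hsymm j i]; ring
    nlinarith [sq_nonneg ((P i i - P i j) + (P j i - P j j)), sq_nonneg (q i j)]
  -- apply the knapsack lemma
  set x : Fin n × Fin n → ℝ := fun p => max (q p.1 p.2 - 1) 0 with hx
  have hcardU : (k + 1).choose 2 ≤ U.card := by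
    have hc : U.card = n.choose 2 := by
      have h := sum_sum_symm (n := n) (fun i j => if i = j then (0:ℝ) else 1)
        (fun i j => by simp [eq_comm]) (fun i => by simp)
      have h1 : ∑ i : Fin n, ∑ j : Fin n, (if i = j then (0:ℝ) else 1) = n * n - n := by
        have : ∀ i : Fin n, ∑ j : Fin n, (if i = j then (0:ℝ) else 1) = n - 1 := by
          intro i
          have : ∀ j : Fin n, (if i = j then (0:ℝ) else 1) = 1 - (if i = j then (1:ℝ) else 0) := by
            intro j; split_ifs <;> ring
          rw [Finset.sum_congr rfl fun j _ => this j, Finset.sum_sub_distrib]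
          simp
        rw [Finset.sum_congr rfl fun i _ => this i, Finset.sum_const, Finset.card_univ,
          Fintype.card_fin, nsmul_eq_mul]
        ring
      have h2 : ∑ p ∈ U, (if p.1 = p.2 then (0:ℝ) else 1) = U.card := by
        rw [Finset.sum_congr rfl (g := fun _ => (1:ℝ))]
        · simp
        · intro p hp
          rw [if_neg (ne_of_lt (Finset.mem_filter.1 hp).2)]
      rw [h1, h2] at h
      have h3 : ((U.card : ℕ) : ℝ) = ((n.choose 2 : ℕ) : ℝ) := by
        rw [Nat.cast_choose_two]
        linarith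
      exact_mod_cast h3
    rw [hc]
    exact Nat.choose_le_choose 2 (by omega)
  have hTk : T.card ≤ k := by
    rw [← hs]; exact Finset.card_filter_le _ _
  have hxs : ∑ p ∈ U, x p ≤ ((k + 1).choose 2 : ℕ) := by
    have hcore := Pool.Br.core_of_cut P hPs hPi hP1 (fun i j => 1 < q i j)
      (fun i j h => by rw [hqs]; exact h)
      (fun S => Pool.Br.cut P hPs hPi hP1 (fun i j => 1 < q i j) S)
    have h1 : ∑ i, ∑ j, (if 1 < q i j then (P i i + P j j - 2 * P i j - 1) else 0)
        = 2 * ∑ p ∈ U, x p := by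
      have h := sum_sum_symm (n := n) (fun i j => max (q i j - 1) 0)
        (fun i j => by rw [hqs]) (fun i => by rw [hq0]; norm_num)
      rw [← h]
      apply Finset.sum_congr rfl; intro i _
      apply Finset.sum_congr rfl; intro j _
      simp only [hq]
      split_ifs with hc
      · rw [max_eq_left (by linarith)]
      · rw [max_eq_right (by linarith)]
    rw [h1, htr] at hcore
    rw [Nat.cast_choose_two]
    push_cast
    have h2 : (T.card : ℝ) ≤ k := by exact_mod_cast hTk
    have h3 : (0:ℝ) ≤ T.card := Nat.cast_nonneg _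
    nlinarith
  obtain ⟨R, hRU, hRc, hR⟩ := exists_top U (fun p => A p.1 p.2) x ((k + 1).choose 2) hcardU
    (fun p _ => h0 _ _) (fun p _ => le_max_right _ _)
    (fun p hp => max_le (by
      have := hq2 p.1 p.2 (ne_of_lt (Finset.mem_filter.1 hp).2)
      linarith) zero_le_one) hxs
  refine ⟨R, hRc, fun p hp => (Finset.mem_filter.1 (hRU hp)).2, ?_⟩
  rw [hsum, hE2]
  have hEA : (∑ i, ∑ j, if i < j then A i j else 0) = ∑ p ∈ U, A p.1 p.2 := by
    rw [hU, Finset.sum_filter, Fintype.sum_prod_type]
  rw [hEA]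
  have : ∑ p ∈ U, A p.1 p.2 * q p.1 p.2 ≤ ∑ p ∈ U, A p.1 p.2 + ∑ p ∈ U, A p.1 p.2 * x p := by
    rw [← Finset.sum_add_distrib]
    apply Finset.sum_le_sum
    intro p _
    have h1 : q p.1 p.2 - 1 ≤ x p := le_max_left _ _
    nlinarith [h0 p.1 p.2, mul_le_mul_of_nonneg_left h1 (h0 p.1 p.2)]
  change ∑ p ∈ U, A p.1 p.2 * x p ≤ ∑ p ∈ R, A p.1 p.2 at hR
  linarith

end Pool.Agent.N404.WBr
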